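import Mathlib
import Pool.Agent.Q68.HL.Main
import Pool.Agent.Q68.HL.Defs

/-!
# MP_135240_an, Q1 (negative answer)

The space is the product of finite sets `S i = Fin (4^i) × Fin (2^(i + 4^i))` with the uniform product
measure and an ultrametric that separates first the first components, then the second components of
the coordinates. The map acts on the `i`-th coordinate by a permutation of `S i`; a point `e_0` of
`S i` is reached after `m` steps from a point `e_m` of the fibre over `j` when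
`2^(i+j) ≤ m < 2^(i+j+1)`. If `f` is `2^i |Fin (2^(i + 4^i))|` times the indicator of `e_0`, summed over
`i`, then `∫ f < ∞`, but the average of `A_k f`, `k = 2^(i+j+1)`, over each fibre is at least
`2^i / 2`.

The definitions `maximalFunction`, `HardyLittlewood`, `Question1` are in `Pool.Agent.Q68.HL.Defs`,
`ballAvg`, `ergAvg`, `JointConvergence` in `Pool.Agent.Q68.LD.Defs`.
-/

open MeasureTheory Filter Topology Set
open scoped ENNReal

namespace Pool.Agent.Results.MP_135240_an.IntegrableCounterexample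

open Q68.HL Q68.LD

lemma hardyLittlewood_mu : @HardyLittlewood Q68.HL.X met _ mu := by
  let _ := met
  refine ⟨2, by norm_num, fun f _ ε hε => ?_⟩
  have hmax : ∀ x, maximalFunction mu f x ≤ ⨆ n, D mu (fun y => ‖f y‖ₑ) n x := by
    intro x
    refine iSup_le fun r => iSup_le fun hr => ?_
    obtain ⟨n, hn⟩ := ball_eq (x := x) hr
    rw [hn]
    exact le_iSup (fun n => D mu (fun y => ‖f y‖ₑ) n x) n
  have hsub : {x | ENNReal.ofReal ε ≤ maximalFunction mu f x} ⊆
      {x | ENNReal.ofReal (ε / 2) < ⨆ n, D mu (fun y => ‖f y‖ₑ) n x} := by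
    intro x hx
    have h1 : ENNReal.ofReal ε ≤ maximalFunction mu f x := hx
    have h2 : ENNReal.ofReal (ε / 2) < ENNReal.ofReal ε :=
      (ENNReal.ofReal_lt_ofReal_iff hε).2 (by linarith)
    exact lt_of_lt_of_le h2 (h1.trans (hmax x))
  have h3 := weak mu (fun y => ‖f y‖ₑ) (c := ENNReal.ofReal (ε / 2))
  have h4 : ENNReal.ofReal (2 / ε) * ENNReal.ofReal (ε / 2) = 1 := by
    rw [← ENNReal.ofReal_mul (by positivity)]
    have : 2 / ε * (ε / 2) = 1 := by field_simp
    rw [this, ENNReal.ofReal_one]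
  calc mu {x | ENNReal.ofReal ε ≤ maximalFunction mu f x}
      ≤ mu {x | ENNReal.ofReal (ε / 2) < ⨆ n, D mu (fun y => ‖f y‖ₑ) n x} := measure_mono hsub
    _ = ENNReal.ofReal (2 / ε) * (ENNReal.ofReal (ε / 2) *
          mu {x | ENNReal.ofReal (ε / 2) < ⨆ n, D mu (fun y => ‖f y‖ₑ) n x}) := by
        rw [← mul_assoc, h4, one_mul]
    _ ≤ _ := by gcongr

/-- The statement of Q1 is false. There is a counterexample in which `X` is a compact ultrametric
space, `T` is a homeomorphism, `f ≥ 0`, and at every point `x` the averages `U_{r,k} f(x)` are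
unbounded as `r ↘ 0`, `k → ∞`. -/
theorem result : ¬ Question1 ∧
    ∃ (X : Type) (_ : MetricSpace X) (_ : MeasurableSpace X) (_ : BorelSpace X)
      (_ : CompactSpace X) (_ : IsUltrametricDist X) (μ : Measure X) (T : X ≃ₜ X) (f : X → ℝ),
      IsProbabilityMeasure μ ∧ HardyLittlewood μ ∧ MeasurePreserving T μ μ ∧ Integrable f μ ∧
      (∀ x, 0 ≤ f x) ∧
      ∀ x, ∀ M : ℝ, ∀ δ > 0, ∀ K : ℕ, ∃ (r : ℝ) (k : ℕ), 0 < r ∧ r < δ ∧ K ≤ k ∧
        M < ballAvg μ r (ergAvg T k f) x := by
  let _ := met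
  have key : ∀ x : Q68.HL.X, ∀ M : ℝ, ∀ δ > 0, ∀ K : ℕ, ∃ (r : ℝ) (k : ℕ),
      0 < r ∧ r < δ ∧ K ≤ k ∧ M < ballAvg mu r (ergAvg T k f) x := by
    intro x M δ hδ K
    have h1 : Tendsto (fun i : ℕ => (2 : ℝ) ^ i / 2) atTop atTop :=
      (tendsto_pow_atTop_atTop_of_one_lt (by norm_num)).atTop_div_const (by norm_num)
    have h2 : Tendsto (fun i : ℕ => ((1 : ℝ) / 2) ^ (2 * i)) atTop (𝓝 0) := by
      simp_rw [pow_mul]
      exact tendsto_pow_atTop_nhds_zero_of_lt_one (by norm_num) (by norm_num)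
    obtain ⟨i, h3, h4, h5⟩ := ((h1.eventually_gt_atTop M).and
      (((tendsto_order.1 h2).2 δ hδ).and (eventually_ge_atTop K))).exists
    refine ⟨(1 / 2) ^ (2 * i), 2 ^ (i + ((x i).1 : ℕ) + 1), by positivity, h4, ?_, ?_⟩
    · have h6 : i + ((x i).1 : ℕ) + 1 < 2 ^ (i + ((x i).1 : ℕ) + 1) := Nat.lt_two_pow_self
      omega
    · exact lt_of_lt_of_le h3 (ballAvg_lower i x)
  refine ⟨?_, Q68.HL.X, met, inferInstance, inferInstance, inferInstance,
    ⟨ds_ultra⟩, mu, T, f, inferInstance, hardyLittlewood_mu, T_mp, f_integrable, f_nonneg, key⟩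
  intro h
  have h1 := h Q68.HL.X mu hardyLittlewood_mu T T_mp f f_integrable
  obtain ⟨x, hx⟩ := h1.exists
  obtain ⟨δ, hδ, K, h2⟩ := hx 1 one_pos
  obtain ⟨r, k, hr, hrδ, hk, h3⟩ := key x ((mu[f | MeasurableSpace.invariants T]) x + 1) δ hδ K
  have h4 := h2 r k hr hrδ hk
  have h5 := le_abs_self (ballAvg mu r (ergAvg T k f) x - (mu[f | MeasurableSpace.invariants T]) x)
  linarith

end Pool.Agent.Results.MP_135240_an.IntegrableCounterexample
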